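import Pool.Agent.H752.KM.Stubs

/-!
# Choice of the parameters (K8) and more time (K12)
-/

set_option autoImplicit false

namespace Pool.Agent.H752.KM

open Pool.Agent.NPC Pool.Agent.H620R2.Gauge MeasureTheory Finset

theorem k8_poly_le (p : Polynomial ℕ) : ∃ e : ℕ, ∀ n, p.eval n ≤ 2 ^ e * (n + 1) ^ e := by
  induction p using Polynomial.induction_on' with
  | add p q hp hq =>
    obtain ⟨e, he⟩ := hp
    obtain ⟨f, hf⟩ := hq
    refine ⟨e + f + 1, fun n => ?_⟩
    rw [Polynomial.eval_add]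
    have h1 : 2 ^ e * (n + 1) ^ e ≤ 2 ^ (e + f) * (n + 1) ^ (e + f + 1) :=
      Nat.mul_le_mul (Nat.pow_le_pow_right (by norm_num) (by omega))
        (Nat.pow_le_pow_right (by omega) (by omega))
    have h2 : 2 ^ f * (n + 1) ^ f ≤ 2 ^ (e + f) * (n + 1) ^ (e + f + 1) :=
      Nat.mul_le_mul (Nat.pow_le_pow_right (by norm_num) (by omega))
        (Nat.pow_le_pow_right (by omega) (by omega))
    calc p.eval n + q.eval n ≤ 2 ^ (e + f) * (n + 1) ^ (e + f + 1) +
          2 ^ (e + f) * (n + 1) ^ (e + f + 1) :=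
          Nat.add_le_add ((he n).trans h1) ((hf n).trans h2)
      _ = 2 ^ (e + f + 1) * (n + 1) ^ (e + f + 1) := by ring
  | monomial d a =>
    refine ⟨a + d, fun n => ?_⟩
    rw [Polynomial.eval_monomial]
    have h1 : a ≤ 2 ^ (a + d) :=
      (Nat.lt_two_pow_self).le.trans (Nat.pow_le_pow_right (by norm_num) (by omega))
    have h2 : n ^ d ≤ (n + 1) ^ (a + d) :=
      (Nat.pow_le_pow_left (by omega) d).trans (Nat.pow_le_pow_right (by omega) (by omega))
    exact Nat.mul_le_mul h1 h2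

theorem k8_N {k n N : ℕ} (h : N ≤ 5 * 2 ^ (n + 1) + 4 * k + 8) :
    N + 1 ≤ 2 ^ (n + (4 * k + 19)) := by
  have h1 : 4 * k + 19 < 2 ^ (4 * k + 19) := Nat.lt_two_pow_self
  have h2 : 1 ≤ 2 ^ n := Nat.one_le_two_pow
  calc N + 1 ≤ 5 * 2 ^ (n + 1) + 4 * k + 8 + 1 := by omega
    _ = 10 * 2 ^ n + (4 * k + 9) * 1 := by ring
    _ ≤ 10 * 2 ^ n + (4 * k + 9) * 2 ^ n := by
        have := Nat.mul_le_mul_left (4 * k + 9) h2
        omega
    _ = 2 ^ n * (4 * k + 19) := by ring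
    _ ≤ 2 ^ n * 2 ^ (4 * k + 19) := Nat.mul_le_mul_left _ h1.le
    _ = 2 ^ (n + (4 * k + 19)) := (pow_add _ _ _).symm

theorem k8_three (n : ℕ) : 3 * 4 ^ n ≤ 2 ^ (2 * n + 2) := by
  rw [pow_add, pow_mul]
  have : (2 : ℕ) ^ 2 = 4 := by norm_num
  rw [this]
  omega

theorem k8_countable : Countable (Polynomial ℕ) := by
  have : Function.Injective (fun p : Polynomial ℕ => (p.toFinsupp.coeff : ℕ →₀ ℕ)) := by
    intro p q h
    ext n
    exact DFunLike.congr_fun h n
  exact this.countable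

/-- K8 -/
theorem t_par : St_par := by
  refine ⟨?_, ?_, ?_, ?_⟩
  · rintro t ⟨p, rfl⟩ k
    obtain ⟨e, he⟩ := k8_poly_le p
    obtain ⟨c, hc⟩ : ∃ c, c = e + e * (4 * k + 19) + e + 2 := ⟨_, rfl⟩
    have hP : ∀ n, (Polynomial.C c * (Polynomial.X + 1) : Polynomial ℕ).eval n = c * (n + 1) := by
      intro n
      simp
    refine ⟨Polynomial.C c * (Polynomial.X + 1), c, fun n => (hP n).le, fun n => ?_, fun n => ?_,
      fun n N hN => ?_⟩
    · rw [hP]
      have : 1 ≤ c := by omega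
      nlinarith
    · rw [hP]
      have : 2 ≤ c := by omega
      nlinarith
    · rw [hP]
      have h1 := k8_N hN
      have h2 : p.eval N ≤ 2 ^ (e + (n + (4 * k + 19)) * e) := by
        refine (he N).trans ?_
        rw [pow_add, pow_mul]
        exact Nat.mul_le_mul_left _ (Nat.pow_le_pow_left h1 _)
      calc p.eval N * (3 * 4 ^ n) ≤ 2 ^ (e + (n + (4 * k + 19)) * e) * 2 ^ (2 * n + 2) :=
            Nat.mul_le_mul h2 (k8_three n)
        _ = 2 ^ (e + (n + (4 * k + 19)) * e + (2 * n + 2)) := by rw [← pow_add]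
        _ ≤ 2 ^ (c * (n + 1)) := by
            refine Nat.pow_le_pow_right (by norm_num) ?_
            have h3 : 0 ≤ e * (4 * k + 19) * n := Nat.zero_le _
            rw [hc]
            nlinarith
  · rintro t ⟨c, rfl⟩ k
    obtain ⟨a, ha⟩ : ∃ a, a = 4 * k + 19 := ⟨_, rfl⟩
    have hP : ∀ n, ((Polynomial.X + Polynomial.C a) ^ c + Polynomial.C 2 * Polynomial.X +
        Polynomial.C (c + 2) : Polynomial ℕ).eval n = (n + a) ^ c + 2 * n + (c + 2) := by
      intro n
      simp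
    refine ⟨(Polynomial.X + Polynomial.C a) ^ c + Polynomial.C 2 * Polynomial.X +
        Polynomial.C (c + 2), fun n => ?_, fun n => ?_, fun n N hN => ?_⟩
    · rw [hP]; omega
    · rw [hP]
      have : 0 ≤ (n + a) ^ c := Nat.zero_le _
      omega
    · rw [hP]
      have h1 := k8_N hN
      have h2 : Nat.log 2 N ≤ n + a := by
        have h3 : N ≤ 2 ^ (n + a) := by rw [ha]; omega
        calc Nat.log 2 N ≤ Nat.log 2 (2 ^ (n + a)) := Nat.log_mono_right h3
          _ = n + a := Nat.log_pow (by norm_num) _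
      have h4 : Nat.log 2 N ^ c ≤ (n + a) ^ c := Nat.pow_le_pow_left h2 c
      calc 2 ^ (Nat.log 2 N ^ c + c) * (3 * 4 ^ n) ≤ 2 ^ (Nat.log 2 N ^ c + c) * 2 ^ (2 * n + 2) :=
            Nat.mul_le_mul_left _ (k8_three n)
        _ = 2 ^ (Nat.log 2 N ^ c + c + (2 * n + 2)) := by rw [← pow_add]
        _ ≤ 2 ^ ((n + a) ^ c + 2 * n + (c + 2)) := Nat.pow_le_pow_right (by norm_num) (by omega)
  · have h1 := k8_countable
    have h2 : polyT = Set.range (fun p : Polynomial ℕ => fun n : ℕ => p.eval n) := by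
      ext t
      constructor
      · rintro ⟨p, rfl⟩; exact ⟨p, rfl⟩
      · rintro ⟨p, rfl⟩; exact ⟨p, rfl⟩
    rw [h2]
    exact Set.countable_range _
  · have h2 : quasiT = Set.range (fun c : ℕ => fun n : ℕ => 2 ^ (Nat.log 2 n ^ c + c)) := by
      ext t
      constructor
      · rintro ⟨p, rfl⟩; exact ⟨p, rfl⟩
      · rintro ⟨p, rfl⟩; exact ⟨p, rfl⟩
    rw [h2]
    exact Set.countable_range _

theorem k12_bound (p : Polynomial ℕ) : ∃ c : ℕ, ∀ n, p.eval n ≤ 2 ^ (Nat.log 2 n ^ c + c) := by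
  obtain ⟨e, he⟩ := k8_poly_le p
  refine ⟨3 * e + 1, fun n => ?_⟩
  have h1 : n + 1 ≤ 2 ^ (Nat.log 2 n + 1) := Nat.lt_pow_succ_log_self (by norm_num) n
  refine (he n).trans ?_
  calc 2 ^ e * (n + 1) ^ e ≤ 2 ^ e * (2 ^ (Nat.log 2 n + 1)) ^ e :=
        Nat.mul_le_mul_left _ (Nat.pow_le_pow_left h1 _)
    _ = 2 ^ (e + (Nat.log 2 n + 1) * e) := by rw [← pow_mul, ← pow_add]
    _ ≤ 2 ^ (Nat.log 2 n ^ (3 * e + 1) + (3 * e + 1)) := by
        refine Nat.pow_le_pow_right (by norm_num) ?_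
        generalize Nat.log 2 n = L
        rcases Nat.lt_or_ge L 2 with h | h
        · have : (L + 1) * e ≤ 2 * e := Nat.mul_le_mul_right _ (by omega)
          omega
        · have h2 : L * (3 * e) ≤ L * L ^ (3 * e) := by
            refine Nat.mul_le_mul_left _ ?_
            exact (Nat.lt_two_pow_self).le.trans (Nat.pow_le_pow_left h _)
          have h3 : L ^ (3 * e + 1) = L * L ^ (3 * e) := by ring
          rw [h3]
          nlinarith

theorem k12_run (M : Alg) (A : Oracle) (x z : List Bool) : ∀ (n n' : ℕ) (a : List Bool),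
    n ≤ n' → M.run A x n a = some z → M.run A x n' a = some z := by
  intro n
  induction n with
  | zero => intro n' a _ h; simp [Alg.run] at h
  | succ n ih =>
    intro n' a hn h
    obtain ⟨n', rfl⟩ : ∃ k, n' = k + 1 := ⟨n' - 1, by omega⟩
    rcases hq : M.D (pairBits x a) with _ | ⟨c, q⟩
    · simpa only [Alg.run, hq] using h
    · cases c with
      | true => simpa only [Alg.run, hq] using h
      | false =>
        simp only [Alg.run, hq] at h ⊢
        exact ih n' _ (by omega) h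

theorem k12_mono {A : Oracle} {F : List Bool → List Bool} (h : FTime polyT A F) :
    FTime quasiT A F := by
  obtain ⟨M, t, ⟨p, rfl⟩, hM⟩ := h
  obtain ⟨c, hc⟩ := k12_bound p
  exact ⟨M, _, ⟨c, rfl⟩, fun x => k12_run M A x _ _ _ _ (hc _) (hM x)⟩

theorem k12_sub {T : Set (ℕ → ℕ)} {A : Oracle} {X Y : Set (Set (List Bool))} (hXY : X ⊆ Y)
    (h : MNull T A Y) : MNull T A X := by
  obtain ⟨d, F, h1, h2, h3, h4, h5⟩ := h
  exact ⟨d, F, h1, h2, h3, h4, fun k L hL => h5 k L (hXY hL)⟩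

/-- K12 -/
theorem t_mono : St_mono := by
  intro A X Y hXY
  refine ⟨k12_sub hXY, k12_sub hXY, fun h => ?_⟩
  obtain ⟨d, F, h1, h2, h3, h4, h5⟩ := k12_sub hXY h
  exact ⟨d, F, k12_mono h1, h2, h3, h4, h5⟩

end Pool.Agent.H752.KM
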